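import Pool.Agent.H63.LEV.LEV1

/-!
# Levinson's theorem for families
-/

set_option autoImplicit false

open Complex Filter Topology Set

namespace Pool.Agent.H63.LEV

open Pool.Agent.H31.LEV

theorem pt_re (x t : ℝ) : (pt x t).re = x := by simp [pt]

theorem pt_im (x t : ℝ) : (pt x t).im = t := by simp [pt]

/-- the continuity of the main term in `ε` -/
theorem exε (R a b c d : ℝ) (hR : 0 < R) : ∃ ε : ℝ, 0 < ε ∧ ε ≤ R / 2 ∧ ε ≤ 1 / 4 ∧
    a / (b * (R - ε)) * (c + d * ε) ≤ a / (b * R) * c + 1 / 2 := by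
  have h1 : ContinuousAt (fun ε : ℝ => a / b * ((R - ε)⁻¹ * (c + d * ε))) 0 := by
    refine ContinuousAt.mul continuousAt_const (ContinuousAt.mul (ContinuousAt.inv₀ ?_ ?_) ?_)
    · fun_prop
    · simpa using hR.ne'
    · fun_prop
  have h2 : (fun ε : ℝ => a / b * ((R - ε)⁻¹ * (c + d * ε))) 0 <
      a / (b * R) * c + 1 / 2 := by
    have h3 : (fun ε : ℝ => a / b * ((R - ε)⁻¹ * (c + d * ε))) 0 = a / (b * R) * c := by
      simp only [sub_zero, mul_zero, add_zero]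
      rw [div_mul_eq_div_div]
      ring
    rw [h3]
    linarith
  have h4 : ∀ᶠ ε in 𝓝 (0 : ℝ), a / b * ((R - ε)⁻¹ * (c + d * ε)) < a / (b * R) * c + 1 / 2 :=
    h1.eventually (gt_mem_nhds h2)
  have h5 : ∀ᶠ ε in 𝓝[>] (0 : ℝ), a / b * ((R - ε)⁻¹ * (c + d * ε)) < a / (b * R) * c + 1 / 2 :=
    h4.filter_mono nhdsWithin_le_nhds
  have h6 : ∀ᶠ ε in 𝓝[>] (0 : ℝ), ε < min (R / 2) (1 / 4) :=
    (eventually_lt_nhds (by positivity)).filter_mono nhdsWithin_le_nhds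
  obtain ⟨ε, ⟨hε1, hε2⟩, hε3⟩ := ((h5.and h6).and self_mem_nhdsWithin).exists
  refine ⟨ε, hε3, (hε2.trans_le (min_le_left _ _)).le, (hε2.trans_le (min_le_right _ _)).le, ?_⟩
  refine le_trans (le_of_eq ?_) hε1.le
  rw [div_mul_eq_div_div]
  ring

theorem pf_LEV (hFIN : T_FIN) : T_LEV := by
  intro R lam C₁ C₂ A κ hR hl0 hl2 hC1 hC2 hA hκ
  obtain ⟨C₀, hC₀, hF⟩ := hFIN
  have hpi := Real.pi_pos
  have hlC1 : 0 ≤ Real.log C₁ := Real.log_nonneg hC1
  have hlC2 : 0 ≤ Real.log C₂ := Real.log_nonneg hC2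
  have hden : 0 < 1 - lam / 2 := by linarith
  set k : ℝ := lam / (1 - lam / 2) with hk
  have hk0 : 0 < k := div_pos hl0 hden
  rcases le_or_gt κ 0 with hκ0 | hκ0
  · refine ⟨0, fun T _ => ⟨0, 1, 0, one_pos, fun ℓ _ X _ L ψ W B _ _ => ?_⟩⟩
    have h1 : 0 ≤ ∑ χ, (NZ (L χ) {s | 0 < s.re ∧ s.re < 1 ∧ 0 < s.im ∧ s.im < T} : ℝ) :=
      Finset.sum_nonneg fun _ _ => Nat.cast_nonneg _
    have h2 : 0 ≤ ∑ χ, (Set.ncard (SC (L χ) T) : ℝ) :=
      Finset.sum_nonneg fun _ _ => Nat.cast_nonneg _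
    nlinarith
  set q : ℝ := Real.log C₁ / R with hq
  have hq0 : 0 ≤ q := div_nonneg hlC1 hR.le
  obtain ⟨K, hK2, hsin, hcos, hK⟩ := exK q (1 - κ) hq0 (by linarith)
  set τ : ℝ := Real.sin (Real.pi / (2 * K)) / Real.cos (Real.pi / (2 * K)) with hτ
  have hτ0 : 0 < τ := div_pos hsin hcos
  have hK0 : (0 : ℝ) < K := by
    have : (2 : ℝ) ≤ K := by exact_mod_cast hK2
    linarith
  -- the slope
  set m : ℝ := (1 - κ) / (2 * Real.pi) - τ / (Real.pi * R) * (K / 3) * (3 / Real.pi * Real.log C₁)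
    with hm
  have hm0 : 0 < m := by
    have h1 : m = 1 / (2 * Real.pi) * ((1 - κ) - 2 / Real.pi * τ * K * q) := by
      rw [hm, hq]
      field_simp
    rw [h1]
    have : 0 < (1 - κ) - 2 / Real.pi * τ * K * q := by linarith
    positivity
  set b₀ : ℝ := 2 / (2 * Real.pi) + C₀ * A + κ * (2 / (2 * Real.pi) + C₀ * A) +
    τ / (Real.pi * R) * (K + 2) * (3 / Real.pi * Real.log C₁) with hb₀
  refine ⟨max 2 ((b₀ + 1) / m), fun T hT => ?_⟩
  have hT2 : 2 ≤ T := (le_max_left _ _).trans hT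
  have hTm : b₀ + 1 ≤ T * m := by
    have := (le_max_right _ _).trans hT
    rwa [div_le_iff₀ hm0] at this
  obtain ⟨D, hD0, hD⟩ := dig_bd (T + 10)
  set Q : ℝ := (T + 3) * K / 3 + 2 with hQ
  have hQ0 : 0 < Q := by
    have : 0 < (T + 3) * K / 3 := by positivity
    linarith
  obtain ⟨ε, hε0, hεR, hε4, hεP⟩ := exε R (τ * Q) Real.pi (3 / Real.pi * Real.log C₁)
    (C₀ * (1 + Real.log C₂) + 2 * C₀) hR
  have hRε : 0 < R - ε := by linarith
  set v : ℝ := κ * ((T + 2) * (A / 2 + D) / Real.pi + C₀) + (T - 2) * (A / 2 + D) / Real.pi + C₀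
    with hv
  have hv0 : 0 ≤ v := by
    have h1 : 0 ≤ (T + 2) * (A / 2 + D) / Real.pi := by positivity
    have h2 : 0 ≤ (T - 2) * (A / 2 + D) / Real.pi :=
      div_nonneg (mul_nonneg (by linarith) (by positivity)) hpi.le
    positivity
  set ℓ₀ : ℝ := 1 + A + R / ε + 4 * R + k + 2 * k * D + 2 * k * (A / 2 + D) +
    2 * k ^ 2 * (A / 2 + D) / ε + 40 * k * A + 2 * k * A ^ 2 / ε + 2 * v with hℓ₀
  refine ⟨T + 10, ε, ℓ₀, hε0, fun ℓ hℓ X _ L ψ W B hB hFam => ?_⟩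
  have p1 : 0 ≤ R / ε := by positivity
  have p2 : 0 ≤ 4 * R := by positivity
  have p3 : 0 ≤ 2 * k * D := by positivity
  have p4 : 0 ≤ 2 * k * (A / 2 + D) := by positivity
  have p5 : 0 ≤ 2 * k ^ 2 * (A / 2 + D) / ε := by positivity
  have p6 : 0 ≤ 40 * k * A := by positivity
  have p7 : 0 ≤ 2 * k * A ^ 2 / ε := by positivity
  have l1 : 1 ≤ ℓ := by linarith
  have lA : A ≤ ℓ := by linarith
  have lR : R / ε ≤ ℓ := by linarith
  have l4R : 4 * R ≤ ℓ := by linarith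
  have lk : k ≤ ℓ := by linarith
  have lkD : 2 * k * D ≤ ℓ := by linarith
  have lkA : 2 * k * (A / 2 + D) ≤ ℓ := by linarith
  have lkk : 2 * k ^ 2 * (A / 2 + D) / ε ≤ ℓ := by linarith
  have l40 : 40 * k * A ≤ ℓ := by linarith
  have lAA : 2 * k * A ^ 2 / ε ≤ ℓ := by linarith
  have lv : 2 * v ≤ ℓ := by linarith
  clear hℓ hℓ₀ p1 p2 p3 p4 p5 p6 p7
  have hℓ0 : 0 < ℓ := by linarith
  set c : ℝ := k / ℓ with hc
  have hc0 : 0 < c := div_pos hk0 hℓ0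
  have hcl : c * ℓ = k := div_mul_cancel₀ _ hℓ0.ne'
  have hc1 : c ≤ 1 := by rw [hc, div_le_one hℓ0]; exact lk
  have hcD : c * D ≤ 1 / 2 := by
    rw [hc, div_mul_eq_mul_div, div_le_iff₀ hℓ0]
    linarith
  have h2k : 2 * k ^ 2 * (A / 2 + D) ≤ ε * ℓ := by
    rw [div_le_iff₀ hε0] at lkk
    linarith
  have hcA : 2 * c * A ≤ 1 / 20 := by
    have : 2 * c * A = 2 * k * A / ℓ := by rw [hc]; ring
    rw [this, div_le_iff₀ hℓ0]
    linarith
  have hcAA : 2 * c * A * A ≤ ε := by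
    have : 2 * c * A * A = 2 * k * A ^ 2 / ℓ := by rw [hc]; ring
    rw [this, div_le_iff₀ hℓ0]
    rw [div_le_iff₀ hε0] at lAA
    linarith
  have hBl := abs_le.1 hFam.logB
  have hB1 : 1 ≤ B := by
    have h1 : 0 ≤ Real.log B := by linarith [hBl.1]
    by_contra h2
    rw [not_le] at h2
    have h3 := Real.log_neg hB h2
    linarith
  set a : ℝ := 1 / 2 - R / ℓ with ha
  set a₁ : ℝ := 1 / 2 - (R - ε) / ℓ with ha₁
  have ha4 : 1 / 4 ≤ a := by
    have : R / ℓ ≤ 1 / 4 := by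
      rw [div_le_iff₀ hℓ0]
      linarith
    linarith
  have haa : a < a₁ := by
    have : (R - ε) / ℓ < R / ℓ := div_lt_div_of_pos_right (by linarith) hℓ0
    linarith
  have ha1h : a₁ < 1 / 2 := by
    have : 0 < (R - ε) / ℓ := div_pos hRε hℓ0
    linarith
  have hae : 1 / 2 - ε ≤ a := by
    have : R / ℓ ≤ ε := by
      rw [div_le_iff₀ hε0] at lR
      rw [div_le_iff₀ hℓ0]
      linarith
    linarith
  -- the coefficient
  have hco : ∀ σ t : ℝ, a ≤ σ → σ ≤ 3 → |t| ≤ T + 10 →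
      ‖(ℓ : ℂ) * (c / hh B c (pt σ t)) - lam‖ ≤ ε ∧ ‖(c : ℂ) / hh B c (pt σ t)‖ ≤ 2 * c := by
    intro σ t h1 h2 h3
    refine coef (A := A) (D := D) hl0 hl2 hℓ0 hc hFam.logB
      (hD _ (by rw [pt_re]; linarith) (by rw [pt_re]; linarith) (by rw [pt_im]; exact h3)) ?_ h2k
    linarith
  have hVV : ∀ χ, ∀ σ t : ℝ, VV (L χ) B c (pt σ t) * ψ χ (pt σ t) =
      (L χ (pt σ t) + (c / hh B c (pt σ t)) * deriv (L χ) (pt σ t)) * ψ χ (pt σ t) :=
    fun χ σ t => rfl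
  obtain ⟨N, hN0, hi, hii, hiii⟩ := hF X L ψ W K T A D ε (2 * ε) ℓ c a a₁ B C₁ C₂ hK2 hT2 hA l1 hD0
    hε0 hε4 (by linarith) (by linarith) hc0 hc1 hae haa ha1h hB1 hC1 hC2 hFam.fe hFam.dψ
    hFam.growth hD hcD
    (by
      intro χ t ht
      obtain ⟨r1, r2, r3⟩ := hFam.right1 χ t ht
      have r4 := hFam.right2 χ t ht
      obtain ⟨_, r5⟩ := hco 3 t (by linarith) le_rfl ht
      have r6 : ‖(c : ℂ) / hh B c (pt 3 t) * deriv (L χ) (pt 3 t)‖ ≤ 2 * c * A := by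
        rw [norm_mul]
        exact mul_le_mul r5 r2 (norm_nonneg _) (by positivity)
      refine ⟨by linarith, ?_, ?_⟩
      · have e1 : VV (L χ) B c (pt 3 t) - 1 = (L χ (pt 3 t) - 1) +
            c / hh B c (pt 3 t) * deriv (L χ) (pt 3 t) := by
          unfold VV
          ring
        rw [e1]
        refine (norm_add_le _ _).trans ?_
        linarith
      · have e1 : VV (L χ) B c (pt 3 t) * ψ χ (pt 3 t) - 1 =
            (L χ (pt 3 t) * ψ χ (pt 3 t) - 1) +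
            c / hh B c (pt 3 t) * deriv (L χ) (pt 3 t) * ψ χ (pt 3 t) := by
          unfold VV
          ring
        rw [e1]
        refine (norm_add_le _ _).trans ?_
        have r7 : ‖(c : ℂ) / hh B c (pt 3 t) * deriv (L χ) (pt 3 t) * ψ χ (pt 3 t)‖ ≤
            2 * c * A * A := by
          rw [norm_mul]
          exact mul_le_mul r6 r3 (norm_nonneg _) (by positivity)
        linarith)
    (by
      intro σ t h1 h2 h3
      exact hFam.mom1 σ t _ h1 h2 h3 (hco σ t h1 (by linarith) h3).1)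
    (by
      intro σ t h1 h2 h3
      exact hFam.mom2 σ t _ h1 h2 h3 (hco σ t h1 h2 h3).1)
    (by
      intro σ t h1 h2 h3
      exact hFam.mom3 σ t _ h1 h2 h3 (hco σ t (by linarith) h2 h3).1)
  -- the final computation
  set n : ℝ := (Fintype.card X : ℝ) with hn
  have hn0 : 0 ≤ n := Nat.cast_nonneg _
  set S₁ : ℝ := ∑ χ, (Set.ncard (SC (L χ) T) : ℝ) with hS₁
  set S₂ : ℝ := ∑ χ, (NZ (L χ) {s | 0 < s.re ∧ s.re < 1 ∧ 0 < s.im ∧ s.im < T} : ℝ) with hS₂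
  set E : ℝ := 3 / Real.pi * Real.log C₁ + (C₀ * (1 + Real.log C₂) + 2 * C₀) * ε with hE
  have hE2 : 3 / Real.pi * Real.log C₁ + C₀ * ε * (1 + Real.log C₂) + C₀ * (2 * ε) = E := by
    rw [hE]; ring
  rw [hE2] at hii
  have hct : Real.cos (Real.pi / (2 * K)) / Real.sin (Real.pi / (2 * K)) = τ⁻¹ := by
    rw [hτ, inv_div]
  rw [hct] at hii
  have hai : 1 / 2 - a₁ = (R - ε) / ℓ := by rw [ha₁]; ring
  rw [hai] at hii
  have h2N : 2 * N ≤ n * (ℓ * (τ * Q / (Real.pi * (R - ε)) * E)) := by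
    have h1 : 2 * N = 2 * Real.pi * τ⁻¹ * ((R - ε) / ℓ * N) * (τ * ℓ / (Real.pi * (R - ε))) := by
      field_simp
    have h2 : n * (ℓ * (τ * Q / (Real.pi * (R - ε)) * E)) =
        n * (Q * E) * (τ * ℓ / (Real.pi * (R - ε))) := by ring
    rw [h1, h2]
    exact mul_le_mul_of_nonneg_right hii (by positivity)
  have hP : τ * Q / (Real.pi * (R - ε)) * E ≤
      τ * Q / (Real.pi * R) * (3 / Real.pi * Real.log C₁) + 1 / 2 := by
    rw [hE]
    exact hεP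
  have hG : (T - 2) / (2 * Real.pi) - C₀ * A - κ * ((T + 2) / (2 * Real.pi) + C₀ * A) -
      τ * Q / (Real.pi * R) * (3 / Real.pi * Real.log C₁) = T * m - b₀ := by
    rw [hm, hb₀, hQ]
    ring
  have hU1 : ℓ * ((T - 2) / (2 * Real.pi) - C₀ * A) - ((T - 2) * (A / 2 + D) / Real.pi + C₀) ≤
      (T - 2) * (Real.log B - D) / Real.pi - C₀ * (1 + A * ℓ) := by
    have h1 : (T - 2) * (Real.log B - D) / Real.pi - C₀ * (1 + A * ℓ) -
        (ℓ * ((T - 2) / (2 * Real.pi) - C₀ * A) - ((T - 2) * (A / 2 + D) / Real.pi + C₀)) =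
        (T - 2) / Real.pi * ((2 * Real.log B - ℓ + A) / 2) := by
      field_simp
      ring
    have h2 : 0 ≤ (T - 2) / Real.pi * ((2 * Real.log B - ℓ + A) / 2) := by
      have h3 : 0 ≤ T - 2 := by linarith
      have h4 : 0 ≤ 2 * Real.log B - ℓ + A := by linarith [hBl.1]
      positivity
    linarith
  have hU3 : (T + 2) * (Real.log B + D) / Real.pi + C₀ * (1 + A * ℓ) ≤
      ℓ * ((T + 2) / (2 * Real.pi) + C₀ * A) + ((T + 2) * (A / 2 + D) / Real.pi + C₀) := by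
    have h1 : ℓ * ((T + 2) / (2 * Real.pi) + C₀ * A) + ((T + 2) * (A / 2 + D) / Real.pi + C₀) -
        ((T + 2) * (Real.log B + D) / Real.pi + C₀ * (1 + A * ℓ)) =
        (T + 2) / Real.pi * ((ℓ + A - 2 * Real.log B) / 2) := by
      field_simp
      ring
    have h2 : 0 ≤ (T + 2) / Real.pi * ((ℓ + A - 2 * Real.log B) / 2) := by
      have h4 : 0 ≤ ℓ + A - 2 * Real.log B := by linarith [hBl.2]
      positivity
    linarith
  have hmain : κ * ((T + 2) * (Real.log B + D) / Real.pi + C₀ * (1 + A * ℓ)) +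
      ℓ * (τ * Q / (Real.pi * (R - ε)) * E) ≤
      (T - 2) * (Real.log B - D) / Real.pi - C₀ * (1 + A * ℓ) := by
    have h1 := mul_le_mul_of_nonneg_left hU3 hκ0.le
    have h2 := mul_le_mul_of_nonneg_left hP hℓ0.le
    have h3 : ℓ * (1 / 2) ≤ ℓ * ((T * m - b₀) - 1 / 2) :=
      mul_le_mul_of_nonneg_left (by linarith) hℓ0.le
    rw [← hG] at h3
    have h4 : κ * (ℓ * ((T + 2) / (2 * Real.pi) + C₀ * A) +
        ((T + 2) * (A / 2 + D) / Real.pi + C₀)) +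
        ℓ * (τ * Q / (Real.pi * R) * (3 / Real.pi * Real.log C₁) + 1 / 2) +
        ℓ * ((T - 2) / (2 * Real.pi) - C₀ * A - κ * ((T + 2) / (2 * Real.pi) + C₀ * A) -
      τ * Q / (Real.pi * R) * (3 / Real.pi * Real.log C₁) - 1 / 2) - v =
        ℓ * ((T - 2) / (2 * Real.pi) - C₀ * A) - ((T - 2) * (A / 2 + D) / Real.pi + C₀) := by
      rw [hv]
      ring
    linarith
  have h5 : κ * S₂ ≤ n * (κ * ((T + 2) * (Real.log B + D) / Real.pi + C₀ * (1 + A * ℓ))) := by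
    have h6 := mul_le_mul_of_nonneg_left hiii hκ0.le
    refine h6.trans (le_of_eq ?_)
    ring
  have h7 := mul_le_mul_of_nonneg_left hmain hn0
  have h8 : n * (κ * ((T + 2) * (Real.log B + D) / Real.pi + C₀ * (1 + A * ℓ)) +
      ℓ * (τ * Q / (Real.pi * (R - ε)) * E)) =
      n * (κ * ((T + 2) * (Real.log B + D) / Real.pi + C₀ * (1 + A * ℓ))) +
      n * (ℓ * (τ * Q / (Real.pi * (R - ε)) * E)) := by ring
  linarith

end Pool.Agent.H63.LEV
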