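import Pool.Agent.H31.LEV.Targets

/-!
# Levinson's theorem for families: auxiliary facts
-/

set_option autoImplicit false

open Complex Filter Topology Set

namespace Pool.Agent.H63.LEV

open Pool.Agent.H31.LEV

/-- the digamma function is bounded on compact sets -/
theorem dig_bd (T : ℝ) : ∃ D : ℝ, 0 ≤ D ∧
    ∀ s : ℂ, 1 / 20 ≤ s.re → s.re ≤ 7 → |s.im| ≤ T → ‖digamma s‖ ≤ D := by
  have hU : IsOpen {s : ℂ | 0 < s.re} := isOpen_lt continuous_const Complex.continuous_re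
  have hG : DifferentiableOn ℂ Gamma {s : ℂ | 0 < s.re} := by
    intro s hs
    refine (Complex.differentiableAt_Gamma s ?_).differentiableWithinAt
    intro m hm
    have h1 : 0 < s.re := hs
    rw [hm] at h1
    simp only [neg_re, natCast_re] at h1
    have : (0 : ℝ) ≤ m := Nat.cast_nonneg m
    linarith
  have hD : ContinuousOn digamma {s : ℂ | 0 < s.re} := by
    rw [digamma_def]
    have h1 : ContinuousOn (fun s => deriv Gamma s / Gamma s) {s : ℂ | 0 < s.re} :=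
      (hG.deriv hU).continuousOn.div hG.continuousOn
        fun s hs => Complex.Gamma_ne_zero_of_re_pos hs
    exact h1
  have hK : IsCompact (Icc (1 / 20 : ℝ) 7 ×ℂ Icc (-T) T) :=
    isCompact_Icc.reProdIm isCompact_Icc
  have hs : Icc (1 / 20 : ℝ) 7 ×ℂ Icc (-T) T ⊆ {s : ℂ | 0 < s.re} := by
    intro s hs
    have h1 := hs.1
    simp only [mem_preimage, mem_Icc] at h1
    show 0 < s.re
    linarith [h1.1]
  obtain ⟨D, hD2⟩ := hK.exists_bound_of_continuousOn (hD.mono hs)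
  refine ⟨max D 0, le_max_right _ _, fun s h1 h2 h3 => ?_⟩
  refine le_trans (hD2 s ?_) (le_max_left _ _)
  rw [abs_le] at h3
  exact ⟨⟨h1, h2⟩, ⟨h3.1, h3.2⟩⟩

/-- the choice of the number of windows -/
theorem exK (q w : ℝ) (hq : 0 ≤ q) (hqw : q < w) : ∃ K : ℕ, 2 ≤ K ∧
    0 < Real.sin (Real.pi / (2 * K)) ∧ 0 < Real.cos (Real.pi / (2 * K)) ∧
    2 / Real.pi * (Real.sin (Real.pi / (2 * K)) / Real.cos (Real.pi / (2 * K))) * K * q < w := by
  have hw : 0 < w := lt_of_le_of_lt hq hqw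
  have hpi := Real.pi_pos
  have hpi4 := Real.pi_lt_four
  have hpi32 := Real.pi_lt_d2
  obtain ⟨K₀, hK₀⟩ := exists_nat_ge (4 * w / (w - q))
  set K : ℕ := max K₀ 2 with hKdef
  have hK2 : 2 ≤ K := le_max_right _ _
  have hK2' : (2 : ℝ) ≤ K := by exact_mod_cast hK2
  have hK0' : 4 * w / (w - q) ≤ K := hK₀.trans (by exact_mod_cast le_max_left _ _)
  have hwq : 0 < w - q := by linarith
  set x : ℝ := Real.pi / (2 * K) with hx
  have hK0 : (0 : ℝ) < K := by linarith
  have hx0 : 0 < x := by positivity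
  have hxK : x * K = Real.pi / 2 := by
    rw [hx]
    field_simp
  have hx1 : x < 1 := by
    rw [hx, div_lt_one (by positivity)]
    linarith
  have hsin : 0 < Real.sin x := Real.sin_pos_of_pos_of_lt_pi hx0 (by linarith [Real.pi_gt_three])
  have hsin2 : Real.sin x < x := Real.sin_lt hx0
  have hcos2 : 1 - x ^ 2 / 2 ≤ Real.cos x := Real.one_sub_sq_div_two_le_cos
  have hx2 : x ^ 2 / 2 ≤ (w - q) / (2 * w) := by
    have h1 : x ^ 2 * K ^ 2 ≤ 2.5 := by
      have : x ^ 2 * K ^ 2 = (x * K) ^ 2 := by ring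
      rw [this, hxK]
      nlinarith
    have h2 : x ^ 2 * K ≤ 4 / 3 := by nlinarith [sq_nonneg x]
    have h3 : 4 * w ≤ K * (w - q) := by
      rw [div_le_iff₀ hwq] at hK0'
      exact hK0'
    rw [div_le_div_iff₀ (by norm_num) (by positivity)]
    have h4 : x ^ 2 * (4 * w) ≤ x ^ 2 * (K * (w - q)) :=
      mul_le_mul_of_nonneg_left h3 (sq_nonneg x)
    nlinarith
  have hden : 0 < 1 - x ^ 2 / 2 := by nlinarith
  have hcos : 0 < Real.cos x := lt_of_lt_of_le hden hcos2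
  refine ⟨K, hK2, hsin, hcos, ?_⟩
  have h5 : Real.sin x / Real.cos x ≤ x / (1 - x ^ 2 / 2) :=
    div_le_div₀ hx0.le hsin2.le hden hcos2
  have h6 : 2 / Real.pi * (Real.sin x / Real.cos x) * K * q ≤ q / (1 - x ^ 2 / 2) := by
    have h7 : 2 / Real.pi * (Real.sin x / Real.cos x) * K * q ≤
        2 / Real.pi * (x / (1 - x ^ 2 / 2)) * K * q := by gcongr
    refine h7.trans (le_of_eq ?_)
    have h8 : 2 / Real.pi * (x / (1 - x ^ 2 / 2)) * K * q =
        2 / Real.pi * (x * K) * q / (1 - x ^ 2 / 2) := by ring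
    rw [h8, hxK]
    field_simp
  refine lt_of_le_of_lt h6 ?_
  rw [div_lt_iff₀ hden]
  have h9 : w * (x ^ 2 / 2) ≤ (w - q) / 2 := by
    have h10 := mul_le_mul_of_nonneg_left hx2 hw.le
    have h11 : w * ((w - q) / (2 * w)) = (w - q) / 2 := by field_simp
    linarith
  nlinarith

/-- the coefficient of Levinson's function -/
theorem coef {lam ℓ A D B c : ℝ} {s : ℂ} {ε : ℝ} (hl0 : 0 < lam) (hl2 : lam < 2) (hℓ : 0 < ℓ)
    (hc : c = lam / (1 - lam / 2) / ℓ) (hB : |2 * Real.log B - ℓ| ≤ A) (hD : ‖digamma s‖ ≤ D)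
    (h1 : lam / (1 - lam / 2) * (A / 2 + D) ≤ ℓ / 2)
    (h2 : 2 * (lam / (1 - lam / 2)) ^ 2 * (A / 2 + D) ≤ ε * ℓ) :
    ‖(ℓ : ℂ) * (c / hh B c s) - lam‖ ≤ ε ∧ ‖(c : ℂ) / hh B c s‖ ≤ 2 * c := by
  set k : ℝ := lam / (1 - lam / 2) with hk
  have hden : 0 < 1 - lam / 2 := by linarith
  have hk0 : 0 < k := div_pos hl0 hden
  have hc0 : 0 < c := by rw [hc]; positivity
  have hcl : c * ℓ = k := by rw [hc]; field_simp
  have hA : 0 ≤ A := le_trans (abs_nonneg _) hB
  have hD0 : 0 ≤ D := le_trans (norm_nonneg _) hD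
  set h₀ : ℝ := 1 + k / 2 with hh₀
  have hkh : k = lam * h₀ := by
    have h3 : k * (1 - lam / 2) = lam := by
      rw [hk]
      exact div_mul_cancel₀ _ hden.ne'
    rw [hh₀]
    linarith
  have hd : hh B c s - (h₀ : ℂ) = (c : ℂ) * (((2 * Real.log B - ℓ) / 2 : ℝ) + digamma s) := by
    have h3 : (h₀ : ℂ) = 1 + (c : ℂ) * ℓ / 2 := by
      rw [hh₀, ← hcl]
      push_cast
      ring
    rw [h3]
    unfold hh
    push_cast
    ring
  have hd2 : ‖hh B c s - (h₀ : ℂ)‖ ≤ c * (A / 2 + D) := by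
    rw [hd, norm_mul, norm_real, Real.norm_eq_abs, abs_of_pos hc0]
    refine mul_le_mul_of_nonneg_left ((norm_add_le _ _).trans (add_le_add ?_ hD)) hc0.le
    rw [norm_real, Real.norm_eq_abs, abs_div, abs_of_pos (by norm_num : (0 : ℝ) < 2)]
    exact div_le_div_of_nonneg_right hB (by norm_num)
  have hce : c * (A / 2 + D) ≤ 1 / 2 := by
    rw [hc, div_mul_eq_mul_div, div_le_iff₀ hℓ]
    linarith
  have hh1 : 1 ≤ h₀ := by rw [hh₀]; linarith
  have hn : 1 / 2 ≤ ‖hh B c s‖ := by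
    have h4 : ‖(h₀ : ℂ)‖ = h₀ := by rw [norm_real, Real.norm_eq_abs, abs_of_pos (by linarith)]
    have h5 := norm_sub_norm_le (h₀ : ℂ) (hh B c s)
    rw [norm_sub_rev, h4] at h5
    linarith
  have hne : hh B c s ≠ 0 := by
    intro h
    rw [h, norm_zero] at hn
    linarith
  constructor
  · have h6 : (ℓ : ℂ) * (c / hh B c s) - lam = lam * ((h₀ : ℂ) - hh B c s) / hh B c s := by
      have h7 : (ℓ : ℂ) * c = lam * h₀ := by
        have : ℓ * c = lam * h₀ := by rw [← hkh, ← hcl]; ring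
        exact_mod_cast this
      rw [← mul_div_assoc, h7]
      field_simp
    rw [h6, norm_div, norm_mul, norm_real, Real.norm_eq_abs, abs_of_pos hl0, norm_sub_rev,
      div_le_iff₀ (by linarith)]
    have h8 : lam * ‖hh B c s - (h₀ : ℂ)‖ ≤ lam * (c * (A / 2 + D)) :=
      mul_le_mul_of_nonneg_left hd2 hl0.le
    have hlk : lam ≤ k := by rw [hkh]; nlinarith
    have h9 : lam * (c * (A / 2 + D)) ≤ k * (c * (A / 2 + D)) :=
      mul_le_mul_of_nonneg_right hlk (by positivity)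
    have h10 : k * (c * (A / 2 + D)) = k ^ 2 * (A / 2 + D) / ℓ := by
      rw [hc]
      field_simp
    have h11 : k ^ 2 * (A / 2 + D) / ℓ ≤ ε / 2 := by
      rw [div_le_iff₀ hℓ]
      linarith
    have hε : 0 ≤ ε := by
      by_contra hneg
      have h12 : 0 ≤ k ^ 2 * (A / 2 + D) / ℓ := by positivity
      rw [not_le] at hneg
      linarith
    nlinarith
  · rw [norm_div, norm_real, Real.norm_eq_abs, abs_of_pos hc0, div_le_iff₀ (by linarith)]
    nlinarith

end Pool.Agent.H63.LEV
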